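import Pool.Agent.Helper227.SOne

set_option autoImplicit false

/-!
Computability lemmas: counting, search, transfer of fibres, subsequences of c.e. sets.
-/

namespace Q206.Bfin

open Encodable
open Pool.Agent.Helper227 (S1)

theorem comp_count {α : Type*} [Primcodable α] {p : α → ℕ → Bool} {f : α → ℕ}
    (hp : Computable₂ p) (hf : Computable f) :
    Computable fun a => Nat.count (fun i => p a i = true) (f a) := by
  have h := Computable.nat_rec (α := α) (σ := ℕ) (f := f) (g := fun _ => 0)
    (h := fun a y => y.2 + cond (p a y.1) 1 0) hf (Computable.const 0) (by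
      have h1 : Computable fun x : α × (ℕ × ℕ) => cond (p x.1 x.2.1) 1 0 :=
        Computable.cond (hp.comp Computable.fst (Computable.fst.comp Computable.snd))
          (Computable.const 1) (Computable.const 0)
      exact (Primrec.nat_add.to_comp.comp (Computable.snd.comp Computable.snd) h1))
  refine h.of_eq fun a => ?_
  generalize f a = n
  induction n with
  | zero => rfl
  | succ n ih =>
    rw [Nat.count_succ, ← ih]
    change _ + (bif p a n then 1 else 0) = _ + _
    congr 1
    cases p a n <;> simp

theorem comp_find {α : Type*} [Primcodable α] {p : α → ℕ → Bool} (hp : Computable₂ p)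
    (h : ∀ a, ∃ n, p a n = true) : ∃ f : α → ℕ, Computable f ∧ ∀ a, p a (f a) = true := by
  have h1 : Partrec fun a : α => Nat.rfind fun n => Part.some (p a n) :=
    Partrec.rfind hp.partrec₂
  have hdom : ∀ a, (Nat.rfind fun n => Part.some (p a n)).Dom := by
    intro a
    refine Nat.rfind_dom.2 ?_
    obtain ⟨n, hn⟩ := h a
    exact ⟨n, by simp [hn], fun _ => trivial⟩
  refine ⟨fun a => (Nat.rfind fun n => Part.some (p a n)).get (hdom a), ?_, fun a => ?_⟩
  · refine h1.of_eq fun a => ?_
    exact (Part.some_get (hdom a)).symm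
  · have h2 := Nat.rfind_spec (Part.get_mem (hdom a))
    exact (Part.mem_some_iff.1 h2).symm

theorem comp_beq {α : Type*} [Primcodable α] {f g : α → ℕ} (hf : Computable f)
    (hg : Computable g) : Computable fun a => (f a == g a) :=
  (Primrec.beq.to_comp).comp hf hg

/-- Transfer of fibres. -/
theorem exists_transfer {u u' : ℕ → ℕ} (hu : Computable u) (hu' : Computable u') {c : ℕ}
    (hc : 1 ≤ c) (h : ∀ l, (u ⁻¹' {l}).encard ≤ c * (u' ⁻¹' {l}).encard) :
    ∃ f : ℕ → ℕ, Computable f ∧ (∀ y, (f ⁻¹' {y}).encard ≤ c) ∧ ∀ x, u' (f x) = u x := by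
  have hcu : Computable fun x : ℕ => Nat.count (fun i => (u i == u x) = true) x :=
    comp_count (p := fun x i => u i == u x)
      (comp_beq (hu.comp Computable.snd) (hu.comp Computable.fst)) Computable.id
  have hcu' : Computable fun x : ℕ × ℕ => Nat.count (fun i => (u' i == u x.1) = true) x.2 :=
    comp_count (p := fun (x : ℕ × ℕ) i => u' i == u x.1)
      (comp_beq (hu'.comp Computable.snd) (hu.comp (Computable.fst.comp Computable.fst)))
      Computable.snd
  let p : ℕ → ℕ → Bool := fun x y => (u' y == u x) &&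
    (Nat.count (fun i => (u' i == u x) = true) y == Nat.count (fun i => (u i == u x) = true) x / c)
  have hp : Computable₂ p := by
    have h1 : Computable fun x : ℕ × ℕ => (u' x.2 == u x.1) :=
      comp_beq (hu'.comp Computable.snd) (hu.comp Computable.fst)
    have h2 : Computable fun x : ℕ × ℕ => (Nat.count (fun i => (u' i == u x.1) = true) x.2 ==
        Nat.count (fun i => (u i == u x.1) = true) x.1 / c) :=
      comp_beq hcu' ((Primrec.nat_div.to_comp).comp (hcu.comp Computable.fst) (Computable.const c))
    exact (Primrec.and.to_comp).comp h1 h2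
  have hp_iff : ∀ x y, p x y = true ↔ u' y = u x ∧
      Nat.count (fun i => u' i = u x) y = Nat.count (fun i => u i = u x) x / c := by
    intro x y
    simp only [p, Bool.and_eq_true, beq_iff_eq]
  have hex : ∀ x, ∃ y, p x y = true := by
    intro x
    set l := u x with hl
    set i := Nat.count (fun i => u i = l) x with hi
    have hlt : ∀ hf : (Set.ofPred fun y => u' y = l).Finite, i / c < hf.toFinset.card := by
      intro hf
      have h1 : (u' ⁻¹' {l}) = (hf.toFinset : Set ℕ) := by
        ext y; simp
      have h2 := h l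
      rw [h1, Set.encard_coe_eq_coe_finsetCard] at h2
      have hfin : (u ⁻¹' {l}).Finite := by
        refine Set.encard_lt_top_iff.1 (lt_of_le_of_lt h2 ?_)
        exact_mod_cast ENat.natCast_lt_top _
      have h3 : i + 1 ≤ hfin.toFinset.card := by
        have h4 : i + 1 = ((Finset.range (x + 1)).filter fun y => u y = l).card := by
          rw [← Nat.count_eq_card_filter_range, Nat.count_succ, if_pos hl.symm]
        rw [h4]
        refine Finset.card_le_card fun y hy => ?_
        simp only [Finset.mem_filter] at hy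
        simp [hy.2]
      rw [hfin.encard_eq_coe_toFinset_card] at h2
      have h5 : hfin.toFinset.card ≤ c * hf.toFinset.card := by exact_mod_cast h2
      refine (Nat.div_lt_iff_lt_mul (by omega)).2 ?_
      rw [mul_comm]
      omega
    refine ⟨Nat.nth (fun y => u' y = l) (i / c), (hp_iff _ _).2 ⟨?_, ?_⟩⟩
    · exact Nat.nth_mem _ hlt
    · exact Nat.count_nth hlt
  obtain ⟨f, hf, hfp⟩ := comp_find hp hex
  refine ⟨f, hf, fun y => ?_, fun x => ((hp_iff _ _).1 (hfp x)).1⟩
  have h1 : ∀ x ∈ f ⁻¹' {y}, u x = u' y ∧ Nat.count (fun i => u i = u' y) x / c =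
      Nat.count (fun i => u' i = u' y) y := by
    intro x hx
    obtain ⟨h2, h3⟩ := (hp_iff _ _).1 (hfp x)
    have hx' : f x = y := hx
    rw [hx'] at h2 h3
    rw [← h2] at h3
    exact ⟨h2.symm, h3.symm⟩
  have h2 : Set.InjOn (fun x => Nat.count (fun i => u i = u' y) x % c) (f ⁻¹' {y}) := by
    intro x hx x' hx' he
    obtain ⟨a1, a2⟩ := h1 x hx
    obtain ⟨b1, b2⟩ := h1 x' hx'
    have h3 : Nat.count (fun i => u i = u' y) x = Nat.count (fun i => u i = u' y) x' := by
      rw [← Nat.div_add_mod (Nat.count (fun i => u i = u' y) x) c,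
        ← Nat.div_add_mod (Nat.count (fun i => u i = u' y) x') c, a2, b2]
      simp only at he
      rw [he]
    exact Nat.count_injective a1 b1 h3
  have h3 : Set.MapsTo (fun x => Nat.count (fun i => u i = u' y) x % c) (f ⁻¹' {y}) (Set.Iio c) :=
    fun x _ => Nat.mod_lt _ hc
  calc (f ⁻¹' {y}).encard ≤ (Set.Iio c).encard := Set.encard_le_encard_of_injOn h3 h2
    _ = c := by
      rw [← Finset.coe_range, Set.encard_coe_eq_coe_finsetCard, Finset.card_range]

/-- An infinite c.e. set contains the range of a strictly increasing computable sequence. -/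
theorem exists_subseq {p : ℕ → Prop} (hp : S1 p) (h : ∀ m, ∃ n, m ≤ n ∧ p n) :
    ∃ b : ℕ → ℕ, Computable b ∧ StrictMono b ∧ ∀ i, p (b i) := by
  obtain ⟨q, ⟨hd, hq⟩, -, he⟩ := hp
  obtain ⟨Q, hQ, hQq⟩ : ∃ Q : ℕ → ℕ → Bool, Primrec₂ Q ∧ ∀ x k, q x k ↔ Q x k = true :=
    ⟨fun x k => @decide (q x k) (hd (x, k)), hq,
      fun x k => (@decide_eq_true_iff (q x k) (hd (x, k))).symm⟩
  have h1 : Computable₂ fun (m z : ℕ) => (decide (m ≤ z.unpair.1) && Q z.unpair.1 z.unpair.2) := by
    have h2 : Primrec fun x : ℕ × ℕ => decide (x.1 ≤ x.2.unpair.1) :=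
      (Primrec.nat_le.comp Primrec.fst (Primrec.fst.comp (Primrec.unpair.comp Primrec.snd))).decide
    have h3 : Primrec fun x : ℕ × ℕ => Q x.2.unpair.1 x.2.unpair.2 :=
      hQ.comp (Primrec.fst.comp (Primrec.unpair.comp Primrec.snd))
        (Primrec.snd.comp (Primrec.unpair.comp Primrec.snd))
    exact (Primrec.and.comp h2 h3).to_comp
  obtain ⟨F, hF, hF2⟩ := comp_find h1 (by
    intro m
    obtain ⟨n, hn, hpn⟩ := h m
    obtain ⟨t, ht⟩ := (he n).1 hpn
    refine ⟨Nat.pair n t, ?_⟩
    rw [Nat.unpair_pair]
    simp only [Bool.and_eq_true, decide_eq_true_eq]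
    exact ⟨hn, (hQq n t).1 ht⟩)
  have hnx : ∀ m, m ≤ (F m).unpair.1 ∧ p (F m).unpair.1 := by
    intro m
    have h2 := hF2 m
    simp only [Bool.and_eq_true, decide_eq_true_eq] at h2
    exact ⟨h2.1, (he _).2 ⟨_, (hQq _ _).2 h2.2⟩⟩
  have hcn : Computable fun m => (F m).unpair.1 :=
    Computable.fst.comp (Computable.unpair.comp hF)
  let b : ℕ → ℕ := fun n => Nat.rec (F 0).unpair.1 (fun _ y => (F (y + 1)).unpair.1) n
  have hb : Computable b := by
    have h2 := Computable.nat_rec (α := ℕ) (σ := ℕ) (f := fun n => n)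
      (g := fun _ => (F 0).unpair.1) (h := fun _ y => (F (y.2 + 1)).unpair.1) Computable.id
      (Computable.const _) (by
        exact hcn.comp (Computable.succ.comp (Computable.snd.comp Computable.snd)))
    exact h2
  refine ⟨b, hb, strictMono_nat_of_lt_succ fun n => ?_, fun i => ?_⟩
  · have := (hnx (b n + 1)).1
    change b n < (F (b n + 1)).unpair.1
    omega
  · cases i with
    | zero => exact (hnx 0).2
    | succ i => exact (hnx (b i + 1)).2

/-- number of terms of `b` below `n` -/
def rk (b : ℕ → ℕ) (n : ℕ) : ℕ := Nat.count (fun i => b i < n) n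

theorem comp_rk {b : ℕ → ℕ} (hb : Computable b) : Computable (rk b) := by
  have h : Computable₂ fun (n i : ℕ) => decide (b i < n) :=
    (Primrec.nat_lt.decide.to_comp).comp (hb.comp Computable.snd) Computable.fst
  refine (comp_count h Computable.id).of_eq fun n => ?_
  unfold rk
  simp only [id, decide_eq_true_eq]

theorem rk_apply {b : ℕ → ℕ} (hb : StrictMono b) (i : ℕ) : rk b (b i) = i := by
  have h1 : i ≤ b i := hb.id_le i
  unfold rk
  rw [Nat.count_eq_card_filter_range]
  have h2 : (Finset.range (b i)).filter (fun j => b j < b i) = Finset.range i := by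
    ext j
    simp only [Finset.mem_filter, Finset.mem_range, hb.lt_iff_lt]
    omega
  rw [h2, Finset.card_range]

/-- the thinning function given by `b` -/
def thin (b : ℕ → ℕ) (l : ℕ) : ℕ :=
  if l < 2 then l else if b (rk b (l - 2)) = l - 2 then
    (if rk b (l - 2) % 3 = 0 then rk b (l - 2) / 3 + 2 else
      if rk b (l - 2) % 3 = 1 then 0 else 1) else 0

theorem comp_ite {α σ : Type*} [Primcodable α] [Primcodable σ] {p : α → Prop} [DecidablePred p]
    {f g : α → σ} (hp : Computable fun a => decide (p a)) (hf : Computable f) (hg : Computable g) :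
    Computable fun a => if p a then f a else g a :=
  (Computable.cond hp hf hg).of_eq fun a => by by_cases h : p a <;> simp [h]

theorem comp_thin {b : ℕ → ℕ} (hb : Computable b) : Computable (thin b) := by
  have h1 : Computable fun l : ℕ => l - 2 :=
    (Primrec.nat_sub.comp Primrec.id (Primrec.const 2)).to_comp
  have h2 : Computable fun l : ℕ => rk b (l - 2) := (comp_rk hb).comp h1
  have h3 : Computable fun l : ℕ => rk b (l - 2) % 3 :=
    (Primrec.nat_mod.to_comp).comp h2 (Computable.const 3)
  have e : ∀ {f g : ℕ → ℕ}, Computable f → Computable g → Computable fun a => decide (f a = g a) :=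
    fun hf hg => (comp_beq hf hg).of_eq fun a => by rw [Bool.eq_iff_iff]; simp
  refine comp_ite (Primrec.nat_lt.decide.comp Primrec.id (Primrec.const 2)).to_comp Computable.id
    (comp_ite (e (hb.comp h2) h1) (comp_ite (e h3 (Computable.const 0)) ?_
      (comp_ite (e h3 (Computable.const 1)) (Computable.const 0) (Computable.const 1)))
      (Computable.const 0))
  exact (Primrec.nat_add.to_comp).comp ((Primrec.nat_div.to_comp).comp h2 (Computable.const 3))
    (Computable.const 2)

theorem thin_apply {b : ℕ → ℕ} (hb : StrictMono b) (i : ℕ) :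
    thin b (b i + 2) = if i % 3 = 0 then i / 3 + 2 else if i % 3 = 1 then 0 else 1 := by
  unfold thin
  rw [if_neg (by omega), Nat.add_sub_cancel, rk_apply hb, if_pos rfl]

theorem thin_eq_iff {b : ℕ → ℕ} (hb : StrictMono b) (n l : ℕ) :
    thin b l = n + 2 ↔ l = b (3 * n) + 2 := by
  constructor
  · intro h
    unfold thin at h
    split_ifs at h with h1 h2 h3 h4
    · omega
    · have h5 : rk b (l - 2) = 3 * n := by omega
      rw [h5] at h2
      omega
    all_goals omega
  · rintro rfl
    rw [thin_apply hb, if_pos (by omega)]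
    omega

end Q206.Bfin
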