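import Pool.Agent.Q206.Bfin.Comp

set_option autoImplicit false

/-!
The forcing: computable functions `e` with `e 0 = 0`, `e 1 = 1`, all of whose fibres over the
numbers `n + 2` have the same size `K`. The condition `e` says that the set which is constructed
is `Y ∘ e` for some `Y` with `Y 0 = 0` and `Y 1 = 1`.
-/

namespace Q206.Bfin

open Encodable Set
open Pool.Agent.Helper227 (S1)

/-- all fibres over the numbers `n + 2` have size `s` -/
def Fib (u : ℕ → ℕ) (s : ℕ) : Prop := ∀ n, (u ⁻¹' {n + 2}).encard = s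

structure IsR (m : ℕ) (r : ℕ → ℕ) : Prop where
  comp : Computable r
  zero : r 0 = 0
  one : r 1 = 1
  fib : Fib r m

theorem IsR.finite {m : ℕ} {r : ℕ → ℕ} (hr : IsR m r) (n : ℕ) : (r ⁻¹' {n + 2}).Finite :=
  Set.encard_lt_top_iff.1 (by rw [hr.fib]; exact ENat.natCast_lt_top _)

theorem IsR.card {m : ℕ} {r : ℕ → ℕ} (hr : IsR m r) (n : ℕ) : (hr.finite n).toFinset.card = m := by
  have h := hr.fib n
  rw [(hr.finite n).encard_eq_coe_toFinset_card] at h
  exact_mod_cast h

theorem IsR.ge {m : ℕ} {r : ℕ → ℕ} (hr : IsR m r) {n l : ℕ} (h : l ∈ r ⁻¹' {n + 2}) : 2 ≤ l := by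
  by_contra hcon
  have h1 : r l = n + 2 := h
  rcases (by omega : l = 0 ∨ l = 1) with rfl | rfl
  · rw [hr.zero] at h1; omega
  · rw [hr.one] at h1; omega

theorem preimage_comp_eq (r u : ℕ → ℕ) (n : ℕ) :
    (r ∘ u) ⁻¹' {n} = ⋃ l ∈ r ⁻¹' {n}, u ⁻¹' {l} := by
  ext x; simp

theorem pw_disj (u : ℕ → ℕ) (S : Set ℕ) : S.PairwiseDisjoint fun l => u ⁻¹' {l} := by
  intro a _ b _ hab
  refine Set.disjoint_left.2 fun x hx hx' => hab ?_
  have h1 : u x = a := hx
  have h2 : u x = b := hx'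
  rw [← h1, ← h2]

theorem encard_comp {m : ℕ} {r u : ℕ → ℕ} (hr : IsR m r) (n : ℕ) :
    ((r ∘ u) ⁻¹' {n + 2}).encard = ∑ l ∈ (hr.finite n).toFinset, (u ⁻¹' {l}).encard := by
  rw [preimage_comp_eq, (hr.finite n).encard_biUnion (pw_disj u _),
    finsum_mem_eq_finite_toFinset_sum _ (hr.finite n)]

theorem Fib.comp {m s : ℕ} {r u : ℕ → ℕ} (hr : IsR m r) (hu : Fib u s) : Fib (r ∘ u) (m * s) := by
  intro n
  rw [encard_comp hr]
  have h3 : ∀ l ∈ (hr.finite n).toFinset, (u ⁻¹' {l}).encard = s := by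
    intro l hl
    have h4 := hr.ge ((hr.finite n).mem_toFinset.1 hl)
    obtain ⟨l', rfl⟩ := Nat.exists_eq_add_of_le h4
    rw [add_comm]
    exact hu l'
  rw [Finset.sum_congr rfl h3, Finset.sum_const, hr.card]
  simp

theorem encard_comp_le {m c : ℕ} {r u : ℕ → ℕ} (hr : IsR m r)
    (hu : ∀ l, (u ⁻¹' {l}).encard ≤ c) (n : ℕ) : ((r ∘ u) ⁻¹' {n + 2}).encard ≤ (m * c : ℕ) := by
  rw [encard_comp hr]
  refine (Finset.sum_le_card_nsmul _ _ _ fun l _ => hu l).trans ?_
  rw [hr.card]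
  simp

theorem isR_id : IsR 1 id := ⟨Computable.id, rfl, rfl, fun n => by simp⟩

theorem IsR.trans {m m' : ℕ} {r r' : ℕ → ℕ} (hr : IsR m r) (hr' : IsR m' r') :
    IsR (m * m') (r ∘ r') :=
  ⟨hr.comp.comp hr'.comp, by simp [hr.zero, hr'.zero], by simp [hr.one, hr'.one],
    Fib.comp hr hr'.fib⟩

/-- conditions -/
def Cond : Type := {e : ℕ → ℕ // ∃ K, 1 ≤ K ∧ IsR K e}

instance : Preorder Cond where
  le a b := ∃ m r, 1 ≤ m ∧ IsR m r ∧ b.1 = r ∘ a.1
  le_refl a := ⟨1, id, le_rfl, isR_id, rfl⟩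
  le_trans := by
    rintro a b c ⟨m, r, hm, hr, h1⟩ ⟨m', r', hm', hr', h2⟩
    exact ⟨m' * m, r' ∘ r, Nat.mul_pos hm' hm, hr'.trans hr, by rw [h2, h1]; rfl⟩

theorem Cond.le_def {a b : Cond} : a ≤ b ↔ ∃ m r, 1 ≤ m ∧ IsR m r ∧ b.1 = r ∘ a.1 := Iff.rfl

theorem extend (e : Cond) {m : ℕ} {r : ℕ → ℕ} (hm : 1 ≤ m) (hr : IsR m r) :
    ∃ e' : Cond, e ≤ e' ∧ e'.1 = r ∘ e.1 := by
  obtain ⟨K, hK, h⟩ := e.2
  exact ⟨⟨r ∘ e.1, m * K, Nat.mul_pos hm hK, hr.trans h⟩, ⟨m, r, hm, hr, rfl⟩, rfl⟩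

/-! ### The dense sets -/

def TT (f : ℕ → ℕ) (e : Cond) : Prop :=
  ∃ s, Fib (e.1 ∘ f) s ∧ (1 ≤ s → ((e.1 ∘ f) ⁻¹' {0}).Infinite ∧ ((e.1 ∘ f) ⁻¹' {1}).Infinite)

def NN (p q : ℕ → ℕ) (e : Cond) : Prop :=
  e.1 ∘ p = e.1 ∘ q ∨ ∀ Y : ℕ → Bool, Y 0 = false → Y 1 = true → Y ∘ e.1 ∘ p ≠ Y ∘ e.1 ∘ q

def MM (k : ℕ) (e : Cond) : Prop := ∃ K, k ≤ K ∧ IsR K e.1

theorem isR_thin {b : ℕ → ℕ} (hb : Computable b) (hm : StrictMono b) : IsR 1 (thin b) := by
  refine ⟨comp_thin hb, by simp [thin], by simp [thin], fun n => ?_⟩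
  have h : thin b ⁻¹' {n + 2} = {b (3 * n) + 2} := by
    ext l
    simp only [mem_preimage, mem_singleton_iff]
    exact thin_eq_iff hm n l
  rw [h, Set.encard_singleton]
  rfl

theorem le_encard_iff {v : ℕ → ℕ} {l s : ℕ} :
    (s : ℕ∞) ≤ (v ⁻¹' {l}).encard ↔ ∃ N, s ≤ Nat.count (fun x => v x = l) N := by
  constructor
  · intro h
    obtain ⟨t, ht, hts⟩ := Set.exists_subset_encard_eq h
    have hfin : t.Finite := Set.encard_lt_top_iff.1 (by rw [hts]; exact ENat.natCast_lt_top _)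
    refine ⟨hfin.toFinset.sup id + 1, ?_⟩
    rw [Nat.count_eq_card_filter_range]
    rw [hfin.encard_eq_coe_toFinset_card] at hts
    have h1 : hfin.toFinset.card = s := by exact_mod_cast hts
    rw [← h1]
    refine Finset.card_le_card fun x hx => ?_
    rw [Finset.mem_filter, Finset.mem_range]
    refine ⟨Nat.lt_succ_of_le (Finset.le_sup (f := id) hx), ?_⟩
    exact ht (hfin.mem_toFinset.1 hx)
  · rintro ⟨N, hN⟩
    rw [Nat.count_eq_card_filter_range] at hN
    calc (s : ℕ∞) ≤ (((Finset.range N).filter fun x => v x = l).card : ℕ∞) := by exact_mod_cast hN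
      _ = ((((Finset.range N).filter fun x => v x = l) : Finset ℕ) : Set ℕ).encard := by
          rw [Set.encard_coe_eq_coe_finsetCard]
      _ ≤ _ := Set.encard_le_encard fun x hx => by
          simp only [Finset.coe_filter, Finset.mem_range, mem_ofPred_eq] at hx
          exact hx.2

theorem s1_le_encard {v : ℕ → ℕ} (hv : Computable v) (s : ℕ) :
    S1 fun n : ℕ => (s : ℕ∞) ≤ (v ⁻¹' {n + 2}).encard := by
  have h1 : Computable fun x : ℕ × ℕ => Nat.count (fun y => (v y == x.1 + 2) = true) x.2 :=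
    comp_count (p := fun (x : ℕ × ℕ) y => v y == x.1 + 2)
      (comp_beq (hv.comp Computable.snd) ((Primrec.nat_add.to_comp).comp
        (Computable.fst.comp Computable.fst) (Computable.const 2))) Computable.snd
  have h2 : S1 fun n : ℕ => ∃ N, s ≤ Nat.count (fun y => (v y == n + 2) = true) N := by
    refine S1.ex (p := fun n N => s ≤ Nat.count (fun y => (v y == n + 2) = true) N) ?_
    exact S1.comp_computable (p := fun y : ℕ => s ≤ y)
      (S1.of_prim (Primrec.nat_le.comp (Primrec.const s) Primrec.id)) h1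
  refine h2.of_eq fun n => ?_
  rw [le_encard_iff]
  simp only [beq_iff_eq]

theorem dense_T {f : ℕ → ℕ} (hf : Computable f) {c : ℕ} (hc : ∀ y, (f ⁻¹' {y}).encard ≤ c)
    (e : Cond) : ∃ e', e ≤ e' ∧ TT f e' := by
  classical
  obtain ⟨K, hK, heK⟩ := e.2
  set v := e.1 ∘ f with hv
  have hvc : Computable v := heK.comp.comp hf
  have hbd : ∀ n, (v ⁻¹' {n + 2}).encard ≤ (K * c : ℕ) := encard_comp_le heK hc
  let P : ℕ → Prop := fun s => ∀ m, ∃ n, m ≤ n ∧ (s : ℕ∞) ≤ (v ⁻¹' {n + 2}).encard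
  have hP0 : P 0 := fun m => ⟨m, le_rfl, by simp⟩
  have hPb : ∀ s, P s → s ≤ K * c := by
    intro s hs
    obtain ⟨n, -, h⟩ := hs 0
    exact_mod_cast h.trans (hbd n)
  set s := Nat.findGreatest P (K * c) with hs
  have hPs : P s := Nat.findGreatest_spec (Nat.zero_le _) hP0
  have hPs1 : ¬ P (s + 1) := fun h => by
    have := Nat.le_findGreatest (hPb _ h) h
    omega
  simp only [P, not_forall, not_exists, not_and] at hPs1
  obtain ⟨m0, hm0⟩ := hPs1
  have hle : ∀ n, m0 ≤ n → (v ⁻¹' {n + 2}).encard ≤ s := by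
    intro n hn
    have h1 := not_le.1 (hm0 n hn)
    have h2 : ((s + 1 : ℕ) : ℕ∞) = (s : ℕ∞) + 1 := by push_cast; rfl
    rw [h2] at h1
    exact Order.le_of_lt_add_one h1
  obtain ⟨b, hb, hbm, hbp⟩ := exists_subseq (p := fun n => m0 ≤ n ∧
      (s : ℕ∞) ≤ (v ⁻¹' {n + 2}).encard)
    (S1.and (S1.of_prim (Primrec.nat_le.comp (Primrec.const m0) Primrec.id)) (s1_le_encard hvc s))
    (by
      intro m
      obtain ⟨n, hn, h⟩ := hPs (max m m0)
      exact ⟨n, le_trans (le_max_left _ _) hn, le_trans (le_max_right _ _) hn, h⟩)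
  have heq : ∀ i, (v ⁻¹' {b i + 2}).encard = s := fun i =>
    le_antisymm (hle _ (hbp i).1) (hbp i).2
  obtain ⟨e', he', he'e⟩ := extend e le_rfl (isR_thin hb hbm)
  refine ⟨e', he', s, fun n => ?_, fun hs1 => ?_⟩
  · have h1 : (e'.1 ∘ f) ⁻¹' {n + 2} = v ⁻¹' {b (3 * n) + 2} := by
      ext x
      simp only [he'e, mem_preimage, mem_singleton_iff, Function.comp_apply]
      exact thin_eq_iff hbm n _
    rw [h1, heq]
  · have hne : ∀ i, ∃ x, v x = b i + 2 := by
      intro i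
      have h1 : (v ⁻¹' {b i + 2}).Nonempty := by
        rw [← Set.encard_ne_zero, heq]
        exact_mod_cast (by omega : s ≠ 0)
      exact h1
    choose x hx using hne
    have hxi : Function.Injective x := by
      intro i j hij
      have h1 := hx i
      rw [hij, hx j] at h1
      exact hbm.injective (by omega)
    have hval : ∀ i, (e'.1 ∘ f) (x i) = if i % 3 = 0 then i / 3 + 2 else
        if i % 3 = 1 then 0 else 1 := by
      intro i
      rw [← thin_apply hbm, ← hx i, he'e]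
      rfl
    constructor
    · refine Set.infinite_of_injective_forall_mem (f := fun i => x (3 * i + 1)) ?_ ?_
      · intro i j hij
        have := hxi hij
        omega
      · intro i
        simp only [mem_preimage, mem_singleton_iff]
        rw [hval, if_neg (by omega), if_pos (by omega)]
    · refine Set.infinite_of_injective_forall_mem (f := fun i => x (3 * i + 2)) ?_ ?_
      · intro i j hij
        have := hxi hij
        omega
      · intro i
        simp only [mem_preimage, mem_singleton_iff]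
        rw [hval, if_neg (by omega), if_neg (by omega)]

/-- decide the label `a + 2` to be `t` -/
def sp (a t l : ℕ) : ℕ := if l < a + 2 then l else if l = a + 2 then t else l - 1

theorem isR_sp (a : ℕ) {t : ℕ} (ht : t < 2) : IsR 1 (sp a t) := by
  refine ⟨?_, by simp [sp], ?_, fun n => ?_⟩
  · have h1 : Primrec (sp a t) :=
      Primrec.ite (Primrec.nat_lt.comp Primrec.id (Primrec.const (a + 2))) Primrec.id
        (Primrec.ite (Primrec.eq.comp Primrec.id (Primrec.const (a + 2))) (Primrec.const t)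
          (Primrec.nat_sub.comp Primrec.id (Primrec.const 1)))
    exact h1.to_comp
  · unfold sp; rw [if_pos (by omega)]
  · have h : sp a t ⁻¹' {n + 2} = {if n < a then n + 2 else n + 3} := by
      ext l
      simp only [mem_preimage, mem_singleton_iff, sp]
      split_ifs <;> omega
    rw [h, Set.encard_singleton]
    rfl

theorem exists_sep {a b : ℕ} (hab : a ≠ b) : ∃ r, IsR 1 r ∧
    ((r a = 0 ∧ r b = 1) ∨ (r a = 1 ∧ r b = 0)) := by
  have key : ∀ a b, a < 2 → 2 ≤ b → ∃ r, IsR 1 r ∧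
      ((r a = 0 ∧ r b = 1) ∨ (r a = 1 ∧ r b = 0)) := by
    intro a b ha hb
    refine ⟨sp (b - 2) (1 - a), isR_sp _ (by omega), ?_⟩
    have h1 : sp (b - 2) (1 - a) a = a := by unfold sp; rw [if_pos (by omega)]
    have h2 : sp (b - 2) (1 - a) b = 1 - a := by
      unfold sp; rw [if_neg (by omega), if_pos (by omega)]
    rw [h1, h2]
    omega
  by_cases ha : a < 2
  · by_cases hb : b < 2
    · refine ⟨id, isR_id, ?_⟩
      simp only [id]
      omega
    · exact key a b ha (by omega)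
  · by_cases hb : b < 2
    · obtain ⟨r, hr, h⟩ := key b a hb (by omega)
      exact ⟨r, hr, by tauto⟩
    · have h1 : sp (a - 2) 0 a = 0 := by unfold sp; rw [if_neg (by omega), if_pos (by omega)]
      have h2 : 2 ≤ sp (a - 2) 0 b := by unfold sp; split_ifs <;> omega
      obtain ⟨r, hr, h⟩ := key 0 (sp (a - 2) 0 b) (by omega) h2
      refine ⟨r ∘ sp (a - 2) 0, hr.trans (isR_sp _ (by omega)), ?_⟩
      simp only [Function.comp_apply, h1]
      exact h

theorem dense_N (p q : ℕ → ℕ) (e : Cond) : ∃ e', e ≤ e' ∧ NN p q e' := by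
  by_cases h : e.1 ∘ p = e.1 ∘ q
  · exact ⟨e, le_rfl, Or.inl h⟩
  · obtain ⟨x, hx⟩ := Function.ne_iff.1 h
    obtain ⟨r, hr, h1⟩ := exists_sep hx
    obtain ⟨e', he', h2⟩ := extend e le_rfl hr
    refine ⟨e', he', Or.inr fun Y h0 h3 hY => ?_⟩
    have h4 := congrFun hY x
    simp only [h2, Function.comp_apply] at h4 h1
    rcases h1 with ⟨h5, h6⟩ | ⟨h5, h6⟩
    · rw [h5, h6, h0, h3] at h4
      exact absurd h4 (by decide)
    · rw [h5, h6, h0, h3] at h4
      exact absurd h4 (by decide)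

theorem isR_grp {m : ℕ} (hm : 1 ≤ m) : IsR m fun l => if l < 2 then l else (l - 2) / m + 2 := by
  refine ⟨?_, by simp, by simp, fun n => ?_⟩
  · have h1 : Primrec fun l : ℕ => if l < 2 then l else (l - 2) / m + 2 :=
      Primrec.ite (Primrec.nat_lt.comp Primrec.id (Primrec.const 2)) Primrec.id
        (Primrec.nat_add.comp (Primrec.nat_div.comp
          (Primrec.nat_sub.comp Primrec.id (Primrec.const 2)) (Primrec.const m))
          (Primrec.const 2))
    exact h1.to_comp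
  · have h : (fun l => if l < 2 then l else (l - 2) / m + 2) ⁻¹' {n + 2} =
        ((Finset.Ico (m * n + 2) (m * n + 2 + m) : Finset ℕ) : Set ℕ) := by
      ext l
      simp only [mem_preimage, mem_singleton_iff, Finset.coe_Ico, mem_Ico]
      split_ifs with h1
      · have := Nat.zero_le (m * n)
        constructor <;> intro h <;> omega
      · rw [Nat.add_right_cancel_iff]
        rw [Nat.div_eq_iff (by omega)]
        constructor
        · rintro ⟨h2, h3⟩
          have h4 : n * m = m * n := mul_comm _ _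
          have h5 : (n + 1) * m = m * n + m := by ring
          omega
        · rintro ⟨h2, h3⟩
          have h4 : n * m = m * n := mul_comm _ _
          have h5 : (n + 1) * m = m * n + m := by ring
          omega
    rw [h, Set.encard_coe_eq_coe_finsetCard, Nat.card_Ico]
    congr 1
    omega

theorem dense_M (k : ℕ) (e : Cond) : ∃ e', e ≤ e' ∧ MM k e' := by
  obtain ⟨K, hK, heK⟩ := e.2
  have hm : 1 ≤ max k 1 := le_max_right _ _
  obtain ⟨e', he', h⟩ := extend e hm (isR_grp hm)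
  refine ⟨e', he', max k 1 * K, ?_, ?_⟩
  · calc k ≤ max k 1 := le_max_left _ _
      _ = max k 1 * 1 := (mul_one _).symm
      _ ≤ max k 1 * K := Nat.mul_le_mul_left _ hK
  · rw [h]
    exact (isR_grp hm).trans heK

/-! ### The generic sequence -/

theorem countable_comp : Countable {f : ℕ → ℕ // Computable f} := by
  have h : ∀ f : {f : ℕ → ℕ // Computable f}, ∃ c : Nat.Partrec.Code,
      ∀ a, c.eval a = Part.some (f.1 a) := by
    rintro ⟨f, hf⟩
    obtain ⟨c, hc⟩ := Nat.Partrec.Code.exists_code.1 (Partrec.nat_iff.1 hf)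
    exact ⟨c, fun a => by rw [hc]; rfl⟩
  choose c hc using h
  refine Function.Injective.countable (f := c) ?_
  intro f g h
  apply Subtype.ext
  funext a
  have h1 := hc f a
  rw [h, hc g a] at h1
  exact (Part.some_injective h1).symm

/-- functions with bounded fibres -/
abbrev BF : Type := {f : ℕ → ℕ // Computable f ∧ ∃ c : ℕ, ∀ y, (f ⁻¹' {y}).encard ≤ c}

theorem countable_bf : Countable BF := by
  have := countable_comp
  exact Function.Injective.countable
    (f := fun f : BF => (⟨f.1, f.2.1⟩ : {f : ℕ → ℕ // Computable f}))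
    (fun f g h => Subtype.ext (by simpa using h))

theorem exists_generic : ∃ e : ℕ → Cond, Monotone e ∧ (∀ f : BF, ∃ n, TT f.1 (e n)) ∧
    (∀ p q : ℕ → ℕ, Computable p → Computable q → ∃ n, NN p q (e n)) ∧
    (∀ k, ∃ n, MM k (e n)) ∧
    ∃ A : ℕ → Bool, ∀ n, ∃ Y : ℕ → Bool, Y 0 = false ∧ Y 1 = true ∧ A = Y ∘ (e n).1 := by
  have := countable_comp
  have := countable_bf
  let ι : Type := BF ⊕ (({f : ℕ → ℕ // Computable f} × {f : ℕ → ℕ // Computable f}) ⊕ ℕ)
  have hι : Countable ι := inferInstanceAs (Countable (_ ⊕ _))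
  let _ : Encodable ι := Encodable.ofCountable ι
  let 𝒟 : ι → Order.Cofinal Cond := fun i => match i with
    | Sum.inl f => ⟨{e | TT f.1 e}, fun e => by
        obtain ⟨c, hc⟩ := f.2.2
        obtain ⟨e', h1, h2⟩ := dense_T f.2.1 hc e
        exact ⟨e', h2, h1⟩⟩
    | Sum.inr (Sum.inl pq) => ⟨{e | NN pq.1.1 pq.2.1 e}, fun e => by
        obtain ⟨e', h1, h2⟩ := dense_N pq.1.1 pq.2.1 e
        exact ⟨e', h2, h1⟩⟩
    | Sum.inr (Sum.inr k) => ⟨{e | MM k e}, fun e => by
        obtain ⟨e', h1, h2⟩ := dense_M k e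
        exact ⟨e', h2, h1⟩⟩
  let e0 : Cond := ⟨id, 1, le_rfl, isR_id⟩
  let e := Order.sequenceOfCofinals e0 𝒟
  have hmono : Monotone e := Order.sequenceOfCofinals.monotone e0 𝒟
  refine ⟨e, hmono, fun f => ⟨_, Order.sequenceOfCofinals.encode_mem e0 𝒟 (Sum.inl f)⟩,
    fun p q hp hq => ⟨_, Order.sequenceOfCofinals.encode_mem e0 𝒟
      (Sum.inr (Sum.inl (⟨p, hp⟩, ⟨q, hq⟩)))⟩,
    fun k => ⟨_, Order.sequenceOfCofinals.encode_mem e0 𝒟 (Sum.inr (Sum.inr k))⟩, ?_⟩
  let t : ℕ → Set (ℕ → Bool) := fun n =>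
    (fun Y : ℕ → Bool => Y ∘ (e n).1) '' {Y | Y 0 = false ∧ Y 1 = true}
  have hcl : IsClosed {Y : ℕ → Bool | Y 0 = false ∧ Y 1 = true} :=
    ((isClosed_discrete {false}).preimage (continuous_apply (A := fun _ : ℕ => Bool) 0)).inter
      ((isClosed_discrete {true}).preimage (continuous_apply (A := fun _ : ℕ => Bool) 1))
  have hcomp : ∀ n, IsCompact (t n) := by
    intro n
    refine hcl.isCompact.image ?_
    exact continuous_pi fun k => continuous_apply _
  have hne : (⋂ n, t n).Nonempty := by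
    refine IsCompact.nonempty_iInter_of_sequence_nonempty_isCompact_isClosed t ?_ ?_ (hcomp 0)
      fun n => (hcomp n).isClosed
    · rintro n _ ⟨Y, ⟨h0, h1⟩, rfl⟩
      obtain ⟨m, r, -, hr, h2⟩ := hmono (Nat.le_succ n)
      refine ⟨Y ∘ r, ⟨by simp [hr.zero, h0], by simp [hr.one, h1]⟩, ?_⟩
      simp only [Nat.succ_eq_add_one] at h2
      rw [h2]
      rfl
    · exact fun n => ⟨_, fun l => l == 1, ⟨rfl, rfl⟩, rfl⟩
  obtain ⟨A, hA⟩ := hne
  refine ⟨A, fun n => ?_⟩
  obtain ⟨Y, ⟨h0, h1⟩, h2⟩ := Set.mem_iInter.1 hA n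
  exact ⟨Y, h0, h1, h2.symm⟩

end Q206.Bfin
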