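import Mathlib

set_option autoImplicit false

/-!
Bounded finite-one reducibility and one-one degrees.
-/

namespace Q206.Bfin

/-- Bounded finite-one reducibility `A ≤_bfin B`: there are a total computable function `f` and a
constant `c` with `x ∈ A ↔ f x ∈ B` for all `x` and `|f⁻¹(y)| ≤ c` for all `y`. -/
def BfinRed (A B : Set ℕ) : Prop :=
  ∃ f : ℕ → ℕ, Computable f ∧ (∃ c : ℕ, ∀ y, (f ⁻¹' {y}).encard ≤ c) ∧ ∀ x, x ∈ A ↔ f x ∈ B

/-- One-one reducibility `A ≤_1 B` (Mathlib's `OneOneReducible`). -/
def OneRed (A B : Set ℕ) : Prop := OneOneReducible (fun x : ℕ => x ∈ A) (fun x : ℕ => x ∈ B)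

/-- The sets of natural numbers, preordered by one-one reducibility. -/
def OSet : Type := Set ℕ

instance : Preorder OSet where
  le A B := OneRed A B
  le_refl _ := oneOneReducible_refl _
  le_trans _ _ _ := OneOneReducible.trans

/-- The partial order of 1-degrees. -/
abbrev OneDeg : Type := Antisymmetrization OSet (· ≤ ·)

/-- The 1-degree of a set. -/
def deg (A : Set ℕ) : OneDeg := toAntisymmetrization (α := OSet) (· ≤ ·) A

/-- The set of the 1-degrees contained in the bounded finite-one degree of `A`. -/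
def oneDegrees (A : Set ℕ) : Set OneDeg :=
  {d | ∃ B : Set ℕ, BfinRed A B ∧ BfinRed B A ∧ d = deg B}

end Q206.Bfin
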