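import Pool.Agent.Q206.Bfin.Cond
import Pool.Agent.Q206.Bfin.Defs

set_option autoImplicit false

namespace Q206.Bfin

open Set

/-- a generic sequence and the function `A` -/
structure Gen (e : ℕ → Cond) (A : ℕ → Bool) : Prop where
  mono : Monotone e
  tt : ∀ f : BF, ∃ n, TT f.1 (e n)
  nn : ∀ p q : ℕ → ℕ, Computable p → Computable q → ∃ n, NN p q (e n)
  mm : ∀ k, ∃ n, MM k (e n)
  comp : ∀ n, ∃ Y : ℕ → Bool, Y 0 = false ∧ Y 1 = true ∧ A = Y ∘ (e n).1

theorem exists_gen : ∃ e A, Gen e A := by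
  obtain ⟨e, h1, h2, h3, h4, A, h5⟩ := exists_generic
  exact ⟨e, A, h1, h2, h3, h4, h5⟩

/-- at stage `n` the function `f` has been treated, with fibres of size `s ≥ 1` -/
structure Good (e : ℕ → Cond) (n : ℕ) (f : ℕ → ℕ) (s : ℕ) : Prop where
  fib : Fib ((e n).1 ∘ f) s
  pos : 1 ≤ s
  inf0 : (((e n).1 ∘ f) ⁻¹' {0}).Infinite
  inf1 : (((e n).1 ∘ f) ⁻¹' {1}).Infinite

variable {e : ℕ → Cond} {A : ℕ → Bool}

theorem inf_up {u r : ℕ → ℕ} {i : ℕ} (hr : r i = i) (h : (u ⁻¹' {i}).Infinite) :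
    ((r ∘ u) ⁻¹' {i}).Infinite := by
  refine h.mono fun x hx => ?_
  have h1 : u x = i := hx
  simp [h1, hr]

theorem Gen.up (hG : Gen e A) {n N : ℕ} (h : n ≤ N) : ∃ m r, 1 ≤ m ∧ IsR m r ∧
    (e N).1 = r ∘ (e n).1 ∧ ∀ f s, Good e n f s → Good e N f (m * s) := by
  obtain ⟨m, r, hm, hr, h1⟩ := hG.mono h
  refine ⟨m, r, hm, hr, h1, fun f s hf => ?_⟩
  have h2 : (e N).1 ∘ f = r ∘ ((e n).1 ∘ f) := by rw [h1]; rfl
  refine ⟨?_, Nat.mul_pos hm hf.pos, ?_, ?_⟩
  · rw [h2]; exact Fib.comp hr hf.fib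
  · rw [h2]; exact inf_up hr.zero hf.inf0
  · rw [h2]; exact inf_up hr.one hf.inf1

theorem Gen.rigid (hG : Gen e A) {p q : ℕ → ℕ} (hp : Computable p) (hq : Computable q)
    (h : A ∘ p = A ∘ q) : ∃ n, ∀ N ≥ n, (e N).1 ∘ p = (e N).1 ∘ q := by
  obtain ⟨n, hn⟩ := hG.nn p q hp hq
  rcases hn with hn | hn
  · refine ⟨n, fun N hN => ?_⟩
    obtain ⟨m, r, -, -, h1⟩ := hG.mono hN
    rw [h1, Function.comp_assoc, Function.comp_assoc, hn]
  · exfalso
    obtain ⟨Y, h0, h1, h2⟩ := hG.comp n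
    refine hn Y h0 h1 ?_
    rw [h2, Function.comp_assoc, Function.comp_assoc] at h
    exact h

theorem fib_unique {u : ℕ → ℕ} {s s' : ℕ} (h : Fib u s) (h' : Fib u s') : s = s' := by
  have h1 := h 0
  rw [h' 0] at h1
  exact_mod_cast h1.symm

/-- Non-reducibility. -/
theorem Gen.le_of_red (hG : Gen e A) {n : ℕ} {f f' h : ℕ → ℕ} {s s' : ℕ} (hf : Good e n f s)
    (hf' : Good e n f' s') (hfc : Computable f) (hfc' : Computable f') (hh : Computable h)
    (hi : Function.Injective h) (hA : ∀ x, A (f x) = A (f' (h x))) : s ≤ s' := by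
  obtain ⟨n1, hn1⟩ := hG.rigid hfc (hfc'.comp hh) (funext hA)
  obtain ⟨m, r, hm, -, -, hup⟩ := hG.up (le_max_left n n1)
  have h1 := hn1 _ (le_max_right n n1)
  have h2 := hup f s hf
  have h3 := hup f' s' hf'
  set N := max n n1 with hN
  have h4 : (((e N).1 ∘ f) ⁻¹' {0 + 2}).encard ≤ (((e N).1 ∘ f') ⁻¹' {0 + 2}).encard := by
    refine Set.encard_le_encard_of_injOn (f := h) (fun x hx => ?_) hi.injOn
    have h5 := congrFun h1 x
    have h6 : ((e N).1 ∘ f) x = 0 + 2 := hx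
    rw [h6] at h5
    exact h5.symm
  rw [h2.fib 0, h3.fib 0] at h4
  have h5 : m * s ≤ m * s' := by exact_mod_cast h4
  exact Nat.le_of_mul_le_mul_left h5 hm

theorem Good.comp_self {n : ℕ} {f : ℕ → ℕ} (hf : Computable f) : Computable ((e n).1 ∘ f) := by
  obtain ⟨K, -, hK⟩ := (e n).2
  exact hK.comp.comp hf

/-- Reducibility by transfer of the fibres. -/
theorem Gen.transfer (hG : Gen e A) {n : ℕ} {f f' : ℕ → ℕ} {s s' c : ℕ} (hf : Fib ((e n).1 ∘ f) s)
    (hf' : Good e n f' s') (hfc : Computable f) (hfc' : Computable f') (hc : 1 ≤ c)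
    (hs : s ≤ c * s') : ∃ h : ℕ → ℕ, Computable h ∧ (∀ y, (h ⁻¹' {y}).encard ≤ c) ∧
      ∀ x, A (f x) = A (f' (h x)) := by
  obtain ⟨Y, h0, h1, h2⟩ := hG.comp n
  obtain ⟨h, hh, hb, he⟩ := exists_transfer (u := (e n).1 ∘ f) (u' := (e n).1 ∘ f')
    (Good.comp_self hfc) (Good.comp_self hfc') hc (by
      intro l
      rcases (by omega : l = 0 ∨ l = 1 ∨ 2 ≤ l) with rfl | rfl | hl
      · rw [hf'.inf0.encard_eq, ENat.mul_top (by exact_mod_cast (by omega : c ≠ 0))]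
        exact le_top
      · rw [hf'.inf1.encard_eq, ENat.mul_top (by exact_mod_cast (by omega : c ≠ 0))]
        exact le_top
      · obtain ⟨l', rfl⟩ := Nat.exists_eq_add_of_le hl
        rw [add_comm 2 l', hf l', hf'.fib l']
        exact_mod_cast hs)
  refine ⟨h, hh, hb, fun x => ?_⟩
  have h3 := he x
  simp only [Function.comp_apply] at h3
  rw [h2]
  simp only [Function.comp_apply]
  rw [h3]

theorem injective_of_encard {h : ℕ → ℕ} (hb : ∀ y, (h ⁻¹' {y}).encard ≤ (1 : ℕ)) :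
    Function.Injective h := by
  intro x y hxy
  have h1 := hb (h y)
  have h2 : (h ⁻¹' {h y}).encard ≤ 1 := by exact_mod_cast h1
  exact Set.encard_le_one_iff.1 h2 x y hxy rfl

theorem Gen.exists_good_id (hG : Gen e A) : ∃ n K, Good e n id K := by
  obtain ⟨n, s, h1, h2⟩ := hG.tt ⟨id, Computable.id, 1, fun y => by simp⟩
  obtain ⟨K, hK, h3⟩ := (e n).2
  have h4 : s = K := fib_unique (u := (e n).1) h1 h3.fib
  obtain ⟨h5, h6⟩ := h2 (by omega)
  exact ⟨n, s, h1, by omega, h5, h6⟩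

theorem Gen.good_of_red (hG : Gen e A) (f : BF) {g : ℕ → ℕ} (hg : Computable g)
    (h : ∀ x, A x = A (f.1 (g x))) : ∃ n s, Good e n f.1 s := by
  obtain ⟨n, s, h1, h2⟩ := hG.tt f
  obtain ⟨n1, hn1⟩ := hG.rigid Computable.id (f.2.1.comp hg) (funext h)
  have hs : 1 ≤ s := by
    by_contra hcon
    have hs0 : s = 0 := by omega
    obtain ⟨m, r, hm, hr, h3⟩ := hG.mono (le_max_left n n1)
    have h4 := hn1 _ (le_max_right n n1)
    set N := max n n1 with hN
    have h5 : Fib ((e N).1 ∘ f.1) (m * s) := by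
      rw [h3, Function.comp_assoc]
      exact Fib.comp hr h1
    rw [hs0, mul_zero] at h5
    obtain ⟨K, hK, h6⟩ := (e N).2
    have h7 : ((e N).1 ⁻¹' {0 + 2}).Nonempty := by
      rw [← Set.encard_ne_zero, h6.fib 0]
      exact_mod_cast (by omega : K ≠ 0)
    obtain ⟨x, hx⟩ := h7
    have h8 := congrFun h4 x
    have h9 : g x ∈ ((e N).1 ∘ f.1) ⁻¹' {0 + 2} := by
      have h10 : (e N).1 x = 0 + 2 := hx
      simp only [Function.comp_apply, id] at h8
      rw [h10] at h8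
      exact h8.symm
    have h11 : ((e N).1 ∘ f.1) ⁻¹' {0 + 2} = ∅ := by
      rw [← Set.encard_eq_zero, h5 0]
      rfl
    rw [h11] at h9
    exact h9
  exact ⟨n, s, h1, hs, (h2 hs).1, (h2 hs).2⟩

/-- the function with prescribed fibres -/
def uf (t x : ℕ) : ℕ := if x % 3 = 0 then 0 else if x % 3 = 1 then 1 else x / 3 / t + 2

theorem comp_uf (t : ℕ) : Computable (uf t) := by
  have h1 : Primrec fun x : ℕ => x % 3 := Primrec.nat_mod.comp Primrec.id (Primrec.const 3)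
  have h : Primrec (uf t) := Primrec.ite (Primrec.eq.comp h1 (Primrec.const 0)) (Primrec.const 0)
    (Primrec.ite (Primrec.eq.comp h1 (Primrec.const 1)) (Primrec.const 1)
      (Primrec.nat_add.comp (Primrec.nat_div.comp (Primrec.nat_div.comp Primrec.id
        (Primrec.const 3)) (Primrec.const t)) (Primrec.const 2)))
  exact h.to_comp

theorem fib_uf {t : ℕ} (ht : 1 ≤ t) : Fib (uf t) t := by
  intro n
  have h : uf t ⁻¹' {n + 2} = (fun i => 3 * i + 2) '' ((Finset.Ico (t * n) (t * n + t) : Finset ℕ) : Set ℕ) := by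
    ext x
    simp only [mem_preimage, mem_singleton_iff, mem_image, Finset.coe_Ico, mem_Ico]
    have h4 : n * t = t * n := mul_comm _ _
    have h5 : (n + 1) * t = t * n + t := by ring
    constructor
    · intro hx
      unfold uf at hx
      split_ifs at hx with h1 h2
      · omega
      · have hx' : x / 3 / t = n := by omega
        rw [Nat.div_eq_iff (by omega)] at hx'
        exact ⟨x / 3, by omega, by omega⟩
    · rintro ⟨i, hi, rfl⟩
      unfold uf
      rw [if_neg (by omega), if_neg (by omega)]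
      have h6 : (3 * i + 2) / 3 = i := by omega
      rw [h6]
      have h7 : i / t = n := by
        rw [Nat.div_eq_iff (by omega)]
        omega
      omega
  rw [h, Function.Injective.encard_image (fun a b hab => by
      have h1 : 3 * a + 2 = 3 * b + 2 := hab
      omega),
    Set.encard_coe_eq_coe_finsetCard, Nat.card_Ico]
  congr 1
  omega

theorem exists_size {n K : ℕ} (hid : Good e n id K) {t : ℕ} (ht : 1 ≤ t) :
    ∃ f : BF, Good e n f.1 t := by
  have hK := hid.pos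
  obtain ⟨f, hf, hb, he⟩ := exists_transfer (u := uf t) (u' := (e n).1) (comp_uf t)
    (Good.comp_self (f := id) Computable.id) ht (by
      intro l
      rcases (by omega : l = 0 ∨ l = 1 ∨ 2 ≤ l) with rfl | rfl | hl
      · have h1 : ((e n).1 ⁻¹' {0}).encard = ⊤ := hid.inf0.encard_eq
        rw [h1, ENat.mul_top (by exact_mod_cast (by omega : t ≠ 0))]
        exact le_top
      · have h1 : ((e n).1 ⁻¹' {1}).encard = ⊤ := hid.inf1.encard_eq
        rw [h1, ENat.mul_top (by exact_mod_cast (by omega : t ≠ 0))]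
        exact le_top
      · obtain ⟨l', rfl⟩ := Nat.exists_eq_add_of_le hl
        have h1 : ((e n).1 ⁻¹' {l' + 2}).encard = K := hid.fib l'
        rw [add_comm 2 l', fib_uf ht l', h1]
        have h2 : t ≤ t * K := Nat.le_mul_of_pos_right _ hK
        exact_mod_cast h2)
  have he' : (e n).1 ∘ f = uf t := funext he
  refine ⟨⟨f, hf, t, hb⟩, ?_, ht, ?_, ?_⟩
  · rw [he']; exact fib_uf ht
  · rw [he']
    refine Set.infinite_of_injective_forall_mem (f := fun i => 3 * i) ?_ ?_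
    · intro i j hij; simp only at hij; omega
    · intro i; simp [uf]
  · rw [he']
    refine Set.infinite_of_injective_forall_mem (f := fun i => 3 * i + 1) ?_ ?_
    · intro i j hij; simp only at hij; omega
    · intro i
      simp only [mem_preimage, mem_singleton_iff, uf]
      rw [if_neg (by omega), if_pos (by omega)]

theorem Gen.exists_mult (hG : Gen e A) (n : ℕ) : ∃ N ≥ n, ∃ m ≥ 2,
    ∀ f s, Good e n f s → Good e N f (m * s) := by
  obtain ⟨K, hK, hKn⟩ := (e n).2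
  obtain ⟨n1, K1, hK1, hK1n⟩ := hG.mm (2 * K)
  obtain ⟨m, r, hm, hr, h1, h2⟩ := hG.up (le_max_left n n1)
  obtain ⟨m', r', hm', hr', h3, -⟩ := hG.up (le_max_right n n1)
  refine ⟨max n n1, le_max_left _ _, m, ?_, h2⟩
  have h4 : Fib (e (max n n1)).1 (m * K) := by rw [h1]; exact Fib.comp hr hKn.fib
  have h5 : Fib (e (max n n1)).1 (m' * K1) := by rw [h3]; exact Fib.comp hr' hK1n.fib
  have h6 := fib_unique h4 h5
  have h7 : K1 ≤ m' * K1 := Nat.le_mul_of_pos_left _ hm'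
  by_contra hcon
  have h8 : m = 1 := by omega
  rw [h8] at h6
  omega

/-! ### Degrees -/

/-- the set given by `f` -/
def st (A : ℕ → Bool) (f : ℕ → ℕ) : Set ℕ := {x | A (f x) = true}

theorem deg_le {B C : Set ℕ} : deg B ≤ deg C ↔ OneRed B C :=
  toAntisymmetrization_le_toAntisymmetrization_iff (α := OSet) (a := B) (b := C)

theorem iff_true_iff {a b : Bool} : (a = true ↔ b = true) ↔ a = b := by
  cases a <;> cases b <;> simp

theorem Gen.deg_le_iff (hG : Gen e A) {n : ℕ} {f f' : BF} {s s' : ℕ} (hf : Good e n f.1 s)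
    (hf' : Good e n f'.1 s') : deg (st A f.1) ≤ deg (st A f'.1) ↔ s ≤ s' := by
  rw [deg_le]
  constructor
  · rintro ⟨h, hh, hi, he⟩
    exact hG.le_of_red hf hf' f.2.1 f'.2.1 hh hi fun x => iff_true_iff.1 (he x)
  · intro hs
    obtain ⟨h, hh, hb, he⟩ := hG.transfer (c := 1) hf.fib hf' f.2.1 f'.2.1 le_rfl (by omega)
    exact ⟨h, hh, injective_of_encard hb, fun x => iff_true_iff.2 (he x)⟩

theorem Gen.mem (hG : Gen e A) {n : ℕ} {f : BF} {s : ℕ} (hf : Good e n f.1 s) :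
    deg (st A f.1) ∈ oneDegrees (st A id) := by
  obtain ⟨K, hK, hKn⟩ := (e n).2
  refine ⟨st A f.1, ?_, ?_, rfl⟩
  · obtain ⟨h, hh, hb, he⟩ := hG.transfer (n := n) (f := id) (f' := f.1) (s := K) (c := K) hKn.fib hf
      Computable.id f.2.1 hK (Nat.le_mul_of_pos_right _ hf.pos)
    exact ⟨h, hh, ⟨K, hb⟩, fun x => iff_true_iff.2 (he x)⟩
  · exact ⟨f.1, f.2.1, f.2.2, fun x => Iff.rfl⟩

theorem Gen.rep (hG : Gen e A) {d : OneDeg} (hd : d ∈ oneDegrees (st A id)) :
    ∃ f : BF, (∃ n s, Good e n f.1 s) ∧ d = deg (st A f.1) := by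
  obtain ⟨B, ⟨g, hg, -, hgA⟩, ⟨f, hf, hb, hfB⟩, rfl⟩ := hd
  have hB : B = st A f := by
    ext x
    exact hfB x
  subst hB
  exact ⟨⟨f, hf, hb⟩, hG.good_of_red ⟨f, hf, hb⟩ hg fun x => iff_true_iff.1 (hgA x), rfl⟩

/-- two degrees and a common stage -/
theorem Gen.rep2 (hG : Gen e A) {d d' : OneDeg} (hd : d ∈ oneDegrees (st A id))
    (hd' : d' ∈ oneDegrees (st A id)) : ∃ (f f' : BF) (n s s' K : ℕ), Good e n f.1 s ∧
      Good e n f'.1 s' ∧ Good e n id K ∧ d = deg (st A f.1) ∧ d' = deg (st A f'.1) := by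
  obtain ⟨f, ⟨n, s, h⟩, rfl⟩ := hG.rep hd
  obtain ⟨f', ⟨n', s', h'⟩, rfl⟩ := hG.rep hd'
  obtain ⟨n0, K, hK⟩ := hG.exists_good_id
  obtain ⟨m, r, -, -, -, h1⟩ := hG.up (show n ≤ max n (max n' n0) from le_max_left _ _)
  obtain ⟨m', r', -, -, -, h2⟩ := hG.up (show n' ≤ max n (max n' n0) from
    (le_max_left _ _).trans (le_max_right _ _))
  obtain ⟨m0, r0, -, -, -, h3⟩ := hG.up (show n0 ≤ max n (max n' n0) from
    (le_max_right _ _).trans (le_max_right _ _))
  exact ⟨f, f', _, _, _, _, h1 _ _ h, h2 _ _ h', h3 _ _ hK, rfl, rfl⟩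

theorem Gen.total (hG : Gen e A) {d d' : OneDeg} (hd : d ∈ oneDegrees (st A id))
    (hd' : d' ∈ oneDegrees (st A id)) : d ≤ d' ∨ d' ≤ d := by
  obtain ⟨f, f', n, s, s', K, h, h', -, rfl, rfl⟩ := hG.rep2 hd hd'
  rw [hG.deg_le_iff h h', hG.deg_le_iff h' h]
  exact le_total s s'

theorem Gen.lt_iff (hG : Gen e A) {n : ℕ} {f f' : BF} {s s' : ℕ} (hf : Good e n f.1 s)
    (hf' : Good e n f'.1 s') : deg (st A f.1) < deg (st A f'.1) ↔ s < s' := by
  rw [lt_iff_le_not_ge, hG.deg_le_iff hf hf', hG.deg_le_iff hf' hf]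
  omega

theorem Gen.dense (hG : Gen e A) {d d' : OneDeg} (hd : d ∈ oneDegrees (st A id))
    (hd' : d' ∈ oneDegrees (st A id)) (hlt : d < d') :
    ∃ d'' ∈ oneDegrees (st A id), d < d'' ∧ d'' < d' := by
  obtain ⟨f, f', n, s, s', K, h, h', hK, rfl, rfl⟩ := hG.rep2 hd hd'
  rw [hG.lt_iff h h'] at hlt
  obtain ⟨N, -, m, hm, hup⟩ := hG.exists_mult n
  obtain ⟨f'', hf''⟩ := exists_size (hup _ _ hK) (t := m * s + 1) (by omega)
  refine ⟨_, hG.mem hf'', ?_, ?_⟩
  · rw [hG.lt_iff (hup _ _ h) hf'']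
    omega
  · rw [hG.lt_iff hf'' (hup _ _ h')]
    have h1 : m * (s + 1) ≤ m * s' := Nat.mul_le_mul_left _ hlt
    have h2 : m * (s + 1) = m * s + m := by ring
    omega

theorem Gen.noMax (hG : Gen e A) {d : OneDeg} (hd : d ∈ oneDegrees (st A id)) :
    ∃ d' ∈ oneDegrees (st A id), d < d' := by
  obtain ⟨f, f', n, s, s', K, h, h', hK, rfl, -⟩ := hG.rep2 hd hd
  obtain ⟨f'', hf''⟩ := exists_size hK (t := s + 1) (by omega)
  exact ⟨_, hG.mem hf'', (hG.lt_iff h hf'').2 (Nat.lt_succ_self s)⟩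

theorem Gen.noMin (hG : Gen e A) {d : OneDeg} (hd : d ∈ oneDegrees (st A id)) :
    ∃ d' ∈ oneDegrees (st A id), d' < d := by
  obtain ⟨f, f', n, s, s', K, h, h', hK, rfl, -⟩ := hG.rep2 hd hd
  obtain ⟨N, -, m, hm, hup⟩ := hG.exists_mult n
  have hs := h.pos
  have h1 : 2 ≤ m * s := by nlinarith
  obtain ⟨f'', hf''⟩ := exists_size (hup _ _ hK) (t := m * s - 1) (by omega)
  exact ⟨_, hG.mem hf'', (hG.lt_iff hf'' (hup _ _ h)).2 (by omega)⟩

theorem Gen.nonempty (hG : Gen e A) : (oneDegrees (st A id)).Nonempty := by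
  obtain ⟨n, K, hK⟩ := hG.exists_good_id
  exact ⟨_, hG.mem (f := ⟨id, Computable.id, 1, fun y => by simp⟩) hK⟩

theorem Gen.countable (hG : Gen e A) : (oneDegrees (st A id)).Countable := by
  have := countable_bf
  refine (Set.countable_range fun f : BF => deg (st A f.1)).mono ?_
  intro d hd
  obtain ⟨f, -, rfl⟩ := hG.rep hd
  exact ⟨f, rfl⟩

theorem Gen.iso (hG : Gen e A) : Nonempty (oneDegrees (st A id) ≃o ℚ) := by
  classical
  let L : LinearOrder (oneDegrees (st A id)) :=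
    { (inferInstance : PartialOrder (oneDegrees (st A id))) with
      le_total := fun a b => hG.total a.2 b.2
      toDecidableLE := Classical.decRel _ }
  have : Countable (oneDegrees (st A id)) := hG.countable.to_subtype
  have : Nonempty (oneDegrees (st A id)) := hG.nonempty.to_subtype
  have : DenselyOrdered (oneDegrees (st A id)) := ⟨fun a b hab => by
    obtain ⟨c, hc, h1, h2⟩ := hG.dense a.2 b.2 hab
    exact ⟨⟨c, hc⟩, h1, h2⟩⟩
  have : NoMaxOrder (oneDegrees (st A id)) := ⟨fun a => by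
    obtain ⟨c, hc, h1⟩ := hG.noMax a.2
    exact ⟨⟨c, hc⟩, h1⟩⟩
  have : NoMinOrder (oneDegrees (st A id)) := ⟨fun a => by
    obtain ⟨c, hc, h1⟩ := hG.noMin a.2
    exact ⟨⟨c, hc⟩, h1⟩⟩
  exact Order.iso_of_countable_dense (oneDegrees (st A id)) ℚ

theorem main : ∃ A : Set ℕ, (∀ d ∈ oneDegrees A, ∀ d' ∈ oneDegrees A, d ≤ d' ∨ d' ≤ d) ∧
    (∀ d ∈ oneDegrees A, ∀ d' ∈ oneDegrees A, d < d' → ∃ d'' ∈ oneDegrees A, d < d'' ∧ d'' < d') ∧
    (oneDegrees A).Nontrivial ∧ Nonempty (oneDegrees A ≃o ℚ) := by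
  obtain ⟨e, A, hG⟩ := exists_gen
  refine ⟨st A id, fun d hd d' hd' => hG.total hd hd', fun d hd d' hd' h => hG.dense hd hd' h, ?_,
    hG.iso⟩
  obtain ⟨d, hd⟩ := hG.nonempty
  obtain ⟨d', hd', h⟩ := hG.noMax hd
  exact ⟨d, hd, d', hd', h.ne⟩

end Q206.Bfin
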